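import Mathlib

set_option autoImplicit false

namespace Pool.Agent.Results.MP_409c19_co.Rigid

open Matrix

/-- Homogeneous coordinates in the real projective plane. -/
abbrev V := Fin 3 → ℝ

/-- Combinatorial configuration `(n_k)`; `I i j` means point `i` lies on line `j`. -/
def IsConfig (n k : ℕ) (I : Fin n → Fin n → Prop) : Prop :=
  (∀ j, {i | I i j}.ncard = k) ∧ (∀ i, {j | I i j}.ncard = k) ∧
  ∀ i i' j j', i ≠ i' → I i j → I i' j → I i j' → I i' j' → j = j'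

/-- Geometric realization in the real projective plane: point `i` has homogeneous coordinates
`p i`, line `j` is `{x | u j ⬝ᵥ x = 0}`; points are distinct, lines are distinct, and the
incidences are exactly those of `I`. -/
def Realizes {n : ℕ} (I : Fin n → Fin n → Prop) (p u : Fin n → V) : Prop :=
  (∀ i, p i ≠ 0) ∧ (∀ j, u j ≠ 0) ∧ (∀ i k, ∀ c : ℝ, p i = c • p k → i = k) ∧
  (∀ j k, ∀ c : ℝ, u j = c • u k → j = k) ∧ ∀ i j, u j ⬝ᵥ p i = 0 ↔ I i j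

/-- A projective transformation carries each point and each line to the corresponding one. -/
def ProjEquiv {n : ℕ} (p u p' u' : Fin n → V) : Prop :=
  ∃ M : Matrix (Fin 3) (Fin 3) ℝ, M.det ≠ 0 ∧ (∀ i, ∃ c : ℝ, c ≠ 0 ∧ M *ᵥ p i = c • p' i) ∧
    ∀ j x, u j ⬝ᵥ x = 0 ↔ u' j ⬝ᵥ (M *ᵥ x) = 0

abbrev Z3 := ℤ × ℤ × ℤ
abbrev E := Bool × Fin 21

def tp : List Z3 := [(1, 0, 0), (-1, -1, -2), (-3, -1, -2), (-8, -1, -5), (-5, -1, -5), (2, 1, 5), (-2, 0, -1), (0, 0, 1), (-2, 1, -1), (0, -1, 1), (2, -2, -1), (-4, -2, -1), (0, -1, -1), (1, 1, 1), (-2, -1, -1), (-7, 1, -4), (4, -1, 4), (1, -1, 4), (1, -1, 0), (0, 1, 0), (-1, -1, 0)]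
def tl : List Z3 := [(-1, 0, 1), (-1, 1, 2), (1, 1, 0), (1, 0, 0), (0, 0, 1), (1, 0, -2), (-3, 1, 1), (3, 1, -5), (1, -1, -1), (-1, -1, 1), (-3, 4, 4), (0, -4, -1), (-3, -4, 2), (-1, 1, 0), (0, -1, 1), (-1, -1, 2), (-3, 5, 2), (0, -5, 1), (3, 5, -4), (1, -2, 0), (-1, -2, 2)]
def T (e : E) : Z3 := (if e.1 then tl else tp).getD e.2.val (0, 0, 0)
def dz (a b : Z3) : ℤ := a.1 * b.1 + a.2.1 * b.2.1 + a.2.2 * b.2.2
def inc (e e' : E) : Bool := (e.1 != e'.1) && (dz (T e) (T e') == 0)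
def non (e e' : E) : Bool := (e.1 != e'.1) && (dz (T e) (T e') != 0)
def I (i j : Fin 21) : Prop := dz (T (true, j)) (T (false, i)) = 0
instance (i j : Fin 21) : Decidable (I i j) := inferInstanceAs (Decidable (_ = _))

theorem config : IsConfig 21 4 I := by
  refine ⟨fun j => ?_, fun i => ?_, ?_⟩
  · have : ∀ j, (Finset.univ.filter (fun i => I i j)).card = 4 := by decide +kernel
    rw [← this j, ← Set.ncard_coe_finset]; congr 1; ext; simp
  · have : ∀ i, (Finset.univ.filter (fun j => I i j)).card = 4 := by decide +kernel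
    rw [← this i, ← Set.ncard_coe_finset]; congr 1; ext; simp
  · have : ∀ i j, I i j → ∀ i', I i' j → i ≠ i' → ∀ j', I i j' → I i' j' → j = j' := by
      decide +kernel
    exact fun i i' j j' h a b c d => this i j a i' b h j' c d

def cv (a : Z3) : V := ![a.1, a.2.1, a.2.2]

theorem dot3 (x y : V) : x ⬝ᵥ y = x 0 * y 0 + x 1 * y 1 + x 2 * y 2 := by
  simp [dotProduct, Fin.sum_univ_three]

theorem tnz : ∀ e, dz (T e) (T e) ≠ 0 := by decide +kernel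
theorem r3 : ∀ i k : Fin 21, (∀ j, I k j → I i j) → i = k := by decide +kernel
theorem r4 : ∀ i k : Fin 21, (∀ j, I j k → I j i) → i = k := by decide +kernel

theorem real : ∃ p u, Realizes I p u := by
  have h : ∀ a b, cv a ⬝ᵥ cv b = (dz a b : ℝ) := by
    intro a b; simp [dot3, cv, dz]; ring
  have h0 : ∀ e, cv (T e) ≠ 0 := by
    intro e he
    have := h (T e) (T e)
    rw [he, zero_dotProduct] at this
    exact tnz e (by exact_mod_cast this.symm)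
  have hi : ∀ i j, cv (T (true, j)) ⬝ᵥ cv (T (false, i)) = 0 ↔ I i j := by
    intro i j; rw [h]; exact Int.cast_eq_zero
  refine ⟨fun i => cv (T (false, i)), fun j => cv (T (true, j)), fun _ => h0 _, fun _ => h0 _,
    fun i k c e => r3 i k fun j hj => ?_, fun i k c e => r4 i k fun j hj => ?_, hi⟩
  · rw [← hi] at *; simp only at e; rw [e, dotProduct_smul, hj, smul_zero]
  · rw [← hi] at *; simp only at e; rw [e, smul_dotProduct, hj, smul_zero]

def d (x y : V) : ℝ := x 0 * y 0 + x 1 * y 1 + x 2 * y 2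
def N (x : V) : Prop := x 0 ≠ 0 ∨ x 1 ≠ 0 ∨ x 2 ≠ 0
def R (x : V) (a b c : ℝ) : Prop := ∃ k, k ≠ 0 ∧ x 0 = k * a ∧ x 1 = k * b ∧ x 2 = k * c

theorem conv (x : V) (a1 a2 a3 c1 c2 c3 g : ℝ) (h : R x a1 a2 a3) (hg : g ≠ 0) (e1 : a1 = g * c1)
    (e2 : a2 = g * c2) (e3 : a3 = g * c3) : R x c1 c2 c3 := by
  obtain ⟨k, hk, h1, h2, h3⟩ := h
  exact ⟨k * g, mul_ne_zero hk hg, by rw [h1, e1]; ring, by rw [h2, e2]; ring, by rw [h3, e3]; ring⟩

theorem eqn (x y : V) (a1 a2 a3 b1 b2 b3 : ℝ) (h : R x a1 a2 a3) (h' : R y b1 b2 b3)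
    (e : d x y = 0) : a1 * b1 + a2 * b2 + a3 * b3 = 0 := by
  obtain ⟨k, hk, h1, h2, h3⟩ := h
  obtain ⟨l, hl, g1, g2, g3⟩ := h'
  apply mul_left_cancel₀ (mul_ne_zero hk hl)
  rw [d, h1, h2, h3, g1, g2, g3] at e
  linear_combination e

theorem toW (x1 x2 x3 a1 a2 a3 b1 b2 b3 : ℝ) (ha : x1 * a1 + x2 * a2 + x3 * a3 = 0)
    (hb : x1 * b1 + x2 * b2 + x3 * b3 = 0)
    (hN : (a2 * b3 - a3 * b2) ^ 2 + (a3 * b1 - a1 * b3) ^ 2 + (a1 * b2 - a2 * b1) ^ 2 ≠ 0) :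
    ∃ k, x1 = k * (a2 * b3 - a3 * b2) ∧ x2 = k * (a3 * b1 - a1 * b3) ∧ x3 = k * (a1 * b2 - a2 * b1) := by
  refine ⟨(x1 * (a2 * b3 - a3 * b2) + x2 * (a3 * b1 - a1 * b3) + x3 * (a1 * b2 - a2 * b1)) /
    ((a2 * b3 - a3 * b2) ^ 2 + (a3 * b1 - a1 * b3) ^ 2 + (a1 * b2 - a2 * b1) ^ 2), ?_, ?_, ?_⟩ <;>
    rw [div_mul_eq_mul_div, eq_div_iff hN]
  · linear_combination ((a3 * b1 - a1 * b3) * a3 - (a1 * b2 - a2 * b1) * a2) * hb -
      ((a3 * b1 - a1 * b3) * b3 - (a1 * b2 - a2 * b1) * b2) * ha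
  · linear_combination ((a1 * b2 - a2 * b1) * a1 - (a2 * b3 - a3 * b2) * a3) * hb -
      ((a1 * b2 - a2 * b1) * b1 - (a2 * b3 - a3 * b2) * b3) * ha
  · linear_combination ((a2 * b3 - a3 * b2) * a2 - (a3 * b1 - a1 * b3) * a1) * hb -
      ((a2 * b3 - a3 * b2) * b2 - (a3 * b1 - a1 * b3) * b1) * ha

theorem nW (y1 y2 y3 a1 a2 a3 b1 b2 b3 : ℝ) (ha : y1 * a1 + y2 * a2 + y3 * a3 = 0)
    (hb : y1 * b1 + y2 * b2 + y3 * b3 ≠ 0) (na : a1 ≠ 0 ∨ a2 ≠ 0 ∨ a3 ≠ 0) :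
    (a2 * b3 - a3 * b2) ^ 2 + (a3 * b1 - a1 * b3) ^ 2 + (a1 * b2 - a2 * b1) ^ 2 ≠ 0 := by
  intro h
  have w1 : a2 * b3 - a3 * b2 = 0 := by nlinarith [sq_nonneg (a2 * b3 - a3 * b2), sq_nonneg (a3 * b1 - a1 * b3), sq_nonneg (a1 * b2 - a2 * b1)]
  have w2 : a3 * b1 - a1 * b3 = 0 := by nlinarith [sq_nonneg (a2 * b3 - a3 * b2), sq_nonneg (a3 * b1 - a1 * b3), sq_nonneg (a1 * b2 - a2 * b1)]
  have w3 : a1 * b2 - a2 * b1 = 0 := by nlinarith [sq_nonneg (a2 * b3 - a3 * b2), sq_nonneg (a3 * b1 - a1 * b3), sq_nonneg (a1 * b2 - a2 * b1)]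
  rcases na with na | na | na <;> apply na <;> apply mul_right_cancel₀ hb
  · linear_combination b1 * ha + y2 * w3 - y3 * w2
  · linear_combination b2 * ha + y3 * w1 - y1 * w3
  · linear_combination b3 * ha + y1 * w2 - y2 * w1

theorem base (x u v y : V) (a1 a2 a3 b1 b2 b3 : ℝ) (nu : N u) (hu : R u a1 a2 a3)
    (hv : R v b1 b2 b3) (h1 : d x u = 0) (h2 : d x v = 0) (h3 : d y u = 0) (h4 : d y v ≠ 0) :
    (a2 * b3 - a3 * b2) ^ 2 + (a3 * b1 - a1 * b3) ^ 2 + (a1 * b2 - a2 * b1) ^ 2 ≠ 0 ∧ ∃ k,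
      x 0 = k * (a2 * b3 - a3 * b2) ∧ x 1 = k * (a3 * b1 - a1 * b3) ∧ x 2 = k * (a1 * b2 - a2 * b1) := by
  obtain ⟨k, hk, u1, u2, u3⟩ := hu
  obtain ⟨l, hl, v1, v2, v3⟩ := hv
  rw [d, u1, u2, u3] at h1 h3
  rw [d, v1, v2, v3] at h2 h4
  rw [N, u1, u2, u3] at nu
  have hN := nW (y 0) (y 1) (y 2) a1 a2 a3 b1 b2 b3 (mul_left_cancel₀ hk (by linear_combination h3))
    (fun e => h4 (by linear_combination l * e))
    (nu.imp right_ne_zero_of_mul (Or.imp right_ne_zero_of_mul right_ne_zero_of_mul))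
  exact ⟨hN, toW _ _ _ _ _ _ _ _ _ (mul_left_cancel₀ hk (by linear_combination h1))
    (mul_left_cancel₀ hl (by linear_combination h2)) hN⟩

theorem mk (x : V) (k c1 c2 c3 : ℝ) (nx : N x) (e1 : x 0 = k * c1) (e2 : x 1 = k * c2)
    (e3 : x 2 = k * c3) : R x c1 c2 c3 := by
  refine ⟨k, ?_, e1, e2, e3⟩
  rintro rfl
  simp [N, e1, e2, e3] at nx

theorem step (x u v y : V) (a1 a2 a3 b1 b2 b3 g c1 c2 c3 : ℝ) (nx : N x) (nu : N u)
    (hu : R u a1 a2 a3) (hv : R v b1 b2 b3) (h1 : d x u = 0) (h2 : d x v = 0) (h3 : d y u = 0)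
    (h4 : d y v ≠ 0) (e1 : a2 * b3 - a3 * b2 = g * c1) (e2 : a3 * b1 - a1 * b3 = g * c2)
    (e3 : a1 * b2 - a2 * b1 = g * c3) : R x c1 c2 c3 := by
  obtain ⟨-, k, x1, x2, x3⟩ := base x u v y _ _ _ _ _ _ nu hu hv h1 h2 h3 h4
  exact mk x (k * g) _ _ _ nx (by rw [x1, e1]; ring) (by rw [x2, e2]; ring) (by rw [x3, e3]; ring)

theorem step' (x u v y : V) (a1 a2 a3 b1 b2 b3 c1 c2 c3 : ℝ) (nx : N x) (nu : N u)
    (hu : R u a1 a2 a3) (hv : R v b1 b2 b3) (h1 : d x u = 0) (h2 : d x v = 0) (h3 : d y u = 0)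
    (h4 : d y v ≠ 0) (e1 : c1 * a1 + c2 * a2 + c3 * a3 = 0) (e2 : c1 * b1 + c2 * b2 + c3 * b3 = 0)
    (e3 : c1 * c1 + c2 * c2 + c3 * c3 ≠ 0) : R x c1 c2 c3 := by
  obtain ⟨hN, k, x1, x2, x3⟩ := base x u v y _ _ _ _ _ _ nu hu hv h1 h2 h3 h4
  obtain ⟨m, m1, m2, m3⟩ := toW _ _ _ _ _ _ _ _ _ e1 e2 hN
  have hm : m ≠ 0 := by
    rintro rfl
    apply e3; rw [m1, m2, m3]; ring
  exact mk x (k / m) _ _ _ nx (by rw [x1, m1]; field_simp) (by rw [x2, m2]; field_simp)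
    (by rw [x3, m3]; field_simp)

theorem param (x v K y : V) (a1 a2 a3 b1 b2 b3 c1 c2 c3 g : ℝ) (hv : R v b1 b2 b3)
    (hK : R K c1 c2 c3) (h1 : d x K = 0) (h2 : d y v = 0) (h3 : d y x ≠ 0)
    (hN : (a2 * b3 - a3 * b2) ^ 2 + (a3 * b1 - a1 * b3) ^ 2 + (a1 * b2 - a2 * b1) ^ 2 ≠ 0)
    (e1 : a2 * b3 - a3 * b2 = g * c1) (e2 : a3 * b1 - a1 * b3 = g * c2)
    (e3 : a1 * b2 - a2 * b1 = g * c3) : ∃ s, R x (a1 + s * b1) (a2 + s * b2) (a3 + s * b3) := by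
  obtain ⟨k, hk, u1, u2, u3⟩ := hK
  obtain ⟨l, hl, v1, v2, v3⟩ := hv
  rw [d, u1, u2, u3] at h1
  rw [d, v1, v2, v3] at h2
  rw [d] at h3
  have h2' : y 0 * b1 + y 1 * b2 + y 2 * b3 = 0 := mul_left_cancel₀ hl (by linear_combination h2)
  have hx : x 0 * (a2 * b3 - a3 * b2) + x 1 * (a3 * b1 - a1 * b3) + x 2 * (a1 * b2 - a2 * b1) = 0 := by
    rw [e1, e2, e3]
    exact mul_left_cancel₀ hk (by linear_combination g * h1)
  generalize hW1 : a2 * b3 - a3 * b2 = W1 at hN hx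
  generalize hW2 : a3 * b1 - a1 * b3 = W2 at hN hx
  generalize hW3 : a1 * b2 - a2 * b1 = W3 at hN hx
  obtain ⟨α, hα⟩ : ∃ α, α = (x 1 * b3 - x 2 * b2) * W1 + (x 2 * b1 - x 0 * b3) * W2 +
    (x 0 * b2 - x 1 * b1) * W3 := ⟨_, rfl⟩
  obtain ⟨β, hβ⟩ : ∃ β, β = (a2 * x 2 - a3 * x 1) * W1 + (a3 * x 0 - a1 * x 2) * W2 +
    (a1 * x 1 - a2 * x 0) * W3 := ⟨_, rfl⟩
  have q1 : (W1 ^ 2 + W2 ^ 2 + W3 ^ 2) * x 0 = α * a1 + β * b1 := by
    subst hW1 hW2 hW3 hα hβ; linear_combination (a2 * b3 - a3 * b2) * hx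
  have q2 : (W1 ^ 2 + W2 ^ 2 + W3 ^ 2) * x 1 = α * a2 + β * b2 := by
    subst hW1 hW2 hW3 hα hβ; linear_combination (a3 * b1 - a1 * b3) * hx
  have q3 : (W1 ^ 2 + W2 ^ 2 + W3 ^ 2) * x 2 = α * a3 + β * b3 := by
    subst hW1 hW2 hW3 hα hβ; linear_combination (a1 * b2 - a2 * b1) * hx
  have hα0 : α ≠ 0 := by
    intro h0
    apply h3
    apply mul_left_cancel₀ hN
    linear_combination y 0 * q1 + y 1 * q2 + y 2 * q3 + β * h2' +
      (y 0 * a1 + y 1 * a2 + y 2 * a3) * h0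
  refine ⟨β / α, α / (W1 ^ 2 + W2 ^ 2 + W3 ^ 2), div_ne_zero hα0 hN, ?_, ?_, ?_⟩ <;> field_simp
  · linear_combination q1
  · linear_combination q2
  · linear_combination q3

def RT (f : E → V) (e : E) : Prop := R (f e) (T e).1 (T e).2.1 (T e).2.2

def chk : List E → List (E × E × E × E) → Bool
  | K, [] => (List.finRange 21).all (fun i => decide ((true, i) ∈ K) && decide ((false, i) ∈ K))
  | K, (x, u, v, y) :: r => decide (u ∈ K) && decide (v ∈ K) && inc x u && inc x v && inc y u &&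
      non y v && chk (x :: K) r

theorem clos (f : E → V) (n0 : ∀ e, N (f e)) (z : ∀ e e', inc e e' = true → d (f e) (f e') = 0)
    (nz : ∀ e e', non e e' = true → d (f e) (f e') ≠ 0) : ∀ (r : List (E × E × E × E)) (K : List E),
    (∀ e ∈ K, RT f e) → chk K r = true → ∀ e, RT f e := by
  intro r
  induction r with
  | nil =>
    intro K hK h ⟨b, i⟩
    rw [chk, List.all_eq_true] at h
    have := h i (List.mem_finRange _)
    simp only [Bool.and_eq_true, decide_eq_true_eq] at this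
    cases b
    · exact hK _ this.2
    · exact hK _ this.1
  | cons s r ih =>
    obtain ⟨x, u, v, y⟩ := s
    intro K hK h
    simp only [chk, Bool.and_eq_true, decide_eq_true_eq] at h
    obtain ⟨⟨⟨⟨⟨⟨h1, h2⟩, h3⟩, h4⟩, h5⟩, h6⟩, h7⟩ := h
    refine ih (x :: K) (fun e he => ?_) h7
    rcases List.mem_cons.1 he with rfl | he
    · have a := h3
      have b := h4
      simp only [inc, dz, Bool.and_eq_true, beq_iff_eq] at a b
      refine step' _ _ _ (f y) _ _ _ _ _ _ _ _ _ (n0 _) (n0 _) (hK u h1) (hK v h2) (z _ _ h3)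
        (z _ _ h4) (z _ _ h5) (nz _ _ h6) (by exact_mod_cast a.2) (by exact_mod_cast b.2) ?_
      have := tnz e
      rw [dz] at this
      exact_mod_cast this
    · exact hK e he

theorem core (f : E → V) (n0 : ∀ e, N (f e)) (z : ∀ e e', inc e e' = true → d (f e) (f e') = 0)
    (nz : ∀ e e', non e e' = true → d (f e) (f e') ≠ 0) (hp0 : R (f (false, 0)) 1 0 0)
    (hp19 : R (f (false, 19)) 0 1 0) (hp7 : R (f (false, 7)) 0 0 1) (hp13 : R (f (false, 13)) 1 1 1) :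
    ∀ e, RT f e := by
  have hl0 : R (f (true, 0)) ((-1)) (0) ((1)) := step _ _ _ (f (true, 13)) _ _ _ _ _ _ ((1)) _ _ _ (n0 _) (n0 _) hp13 hp19 (z _ _ (by decide)) (z _ _ (by decide)) (z _ _ (by decide)) (nz _ _ (by decide)) (by ring) (by ring) (by ring)
  have hl3 : R (f (true, 3)) ((-1)) (0) (0) := step _ _ _ (f (true, 2)) _ _ _ _ _ _ ((1)) _ _ _ (n0 _) (n0 _) hp7 hp19 (z _ _ (by decide)) (z _ _ (by decide)) (z _ _ (by decide)) (nz _ _ (by decide)) (by ring) (by ring) (by ring)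
  have hl4 : R (f (true, 4)) (0) (0) ((1)) := step _ _ _ (f (true, 11)) _ _ _ _ _ _ ((1)) _ _ _ (n0 _) (n0 _) hp0 hp19 (z _ _ (by decide)) (z _ _ (by decide)) (z _ _ (by decide)) (nz _ _ (by decide)) (by ring) (by ring) (by ring)
  have hl13 : R (f (true, 13)) ((-1)) ((1)) (0) := step _ _ _ (f (true, 2)) _ _ _ _ _ _ ((1)) _ _ _ (n0 _) (n0 _) hp7 hp13 (z _ _ (by decide)) (z _ _ (by decide)) (z _ _ (by decide)) (nz _ _ (by decide)) (by ring) (by ring) (by ring)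
  have hp20 : R (f (false, 20)) ((-1)) ((-1)) (0) := step _ _ _ (f (false, 0)) _ _ _ _ _ _ ((1)) _ _ _ (n0 _) (n0 _) hl4 hl13 (z _ _ (by decide)) (z _ _ (by decide)) (z _ _ (by decide)) (nz _ _ (by decide)) (by ring) (by ring) (by ring)
  have hl14 : R (f (true, 14)) (0) ((-1)) ((1)) := step _ _ _ (f (true, 4)) _ _ _ _ _ _ ((1)) _ _ _ (n0 _) (n0 _) hp0 hp13 (z _ _ (by decide)) (z _ _ (by decide)) (z _ _ (by decide)) (nz _ _ (by decide)) (by ring) (by ring) (by ring)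
  have hp12 : R (f (false, 12)) (0) ((1)) ((1)) := step _ _ _ (f (false, 7)) _ _ _ _ _ _ ((1)) _ _ _ (n0 _) (n0 _) hl3 hl14 (z _ _ (by decide)) (z _ _ (by decide)) (z _ _ (by decide)) (nz _ _ (by decide)) (by ring) (by ring) (by ring)
  obtain ⟨s, hp9'⟩ := param (f (false, 9)) _ _ (f (true, 9)) (0) (0) ((1)) _ _ _ _ _ _ ((1)) hp12 hl3 (z _ _ (by decide)) (z _ _ (by decide)) (nz _ _ (by decide)) (by norm_num) (by ring) (by ring) (by ring)
  have hp9 : R (f (false, 9)) (0) ((1)*s) ((1)*s + (1)) := conv _ _ _ _ _ _ _ 1 hp9' one_ne_zero (by ring) (by ring) (by ring)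
  have hl8 : R (f (true, 8)) ((1)*s + (1)) ((-1)*s + (-1)) ((1)*s) := step _ _ _ (f (true, 3)) _ _ _ _ _ _ ((1)) _ _ _ (n0 _) (n0 _) hp9 hp20 (z _ _ (by decide)) (z _ _ (by decide)) (z _ _ (by decide)) (nz _ _ (by decide)) (by ring) (by ring) (by ring)
  have hp14 : R (f (false, 14)) ((-1)) ((-1)*s + (-1)) ((-1)*s + (-1)) := step _ _ _ (f (false, 2)) _ _ _ _ _ _ ((1)) _ _ _ (n0 _) (n0 _) hl8 hl14 (z _ _ (by decide)) (z _ _ (by decide)) (z _ _ (by decide)) (nz _ _ (by decide)) (by ring) (by ring) (by ring)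
  have hl5 : R (f (true, 5)) ((1)*s + (1)) (0) ((-1)) := step _ _ _ (f (true, 8)) _ _ _ _ _ _ ((1)) _ _ _ (n0 _) (n0 _) hp14 hp19 (z _ _ (by decide)) (z _ _ (by decide)) (z _ _ (by decide)) (nz _ _ (by decide)) (by ring) (by ring) (by ring)
  have hl19 : R (f (true, 19)) ((1)*s + (1)) ((-1)) (0) := step _ _ _ (f (true, 2)) _ _ _ _ _ _ ((1)) _ _ _ (n0 _) (n0 _) hp7 hp14 (z _ _ (by decide)) (z _ _ (by decide)) (z _ _ (by decide)) (nz _ _ (by decide)) (by ring) (by ring) (by ring)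
  obtain ⟨t, hl15'⟩ := param (f (true, 15)) _ _ (f (false, 1)) ((-1)) (0) ((1)) _ _ _ _ _ _ ((-1)) hl13 hp13 (z _ _ (by decide)) (z _ _ (by decide)) (nz _ _ (by decide)) (by norm_num) (by ring) (by ring) (by ring)
  have hl15 : R (f (true, 15)) ((-1)*t + (-1)) ((1)*t) ((1)) := conv _ _ _ _ _ _ _ 1 hl15' one_ne_zero (by ring) (by ring) (by ring)
  have hp18 : R (f (false, 18)) ((-1)*t) ((-1)*t + (-1)) (0) := step _ _ _ (f (false, 0)) _ _ _ _ _ _ ((1)) _ _ _ (n0 _) (n0 _) hl4 hl15 (z _ _ (by decide)) (z _ _ (by decide)) (z _ _ (by decide)) (nz _ _ (by decide)) (by ring) (by ring) (by ring)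
  have hl2 : R (f (true, 2)) ((1)*t + (1)) ((-1)*t) (0) := step _ _ _ (f (true, 3)) _ _ _ _ _ _ ((1)) _ _ _ (n0 _) (n0 _) hp7 hp18 (z _ _ (by decide)) (z _ _ (by decide)) (z _ _ (by decide)) (nz _ _ (by decide)) (by ring) (by ring) (by ring)
  have hl9 : R (f (true, 9)) ((1)*t + (1)) ((-1)*t) ((1)*t) := step _ _ _ (f (true, 3)) _ _ _ _ _ _ ((1)) _ _ _ (n0 _) (n0 _) hp12 hp18 (z _ _ (by decide)) (z _ _ (by decide)) (z _ _ (by decide)) (nz _ _ (by decide)) (by ring) (by ring) (by ring)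
  have hp1 : R (f (false, 1)) ((-1)*t) ((-1)*t) ((1)) := step _ _ _ (f (false, 8)) _ _ _ _ _ _ ((1)) _ _ _ (n0 _) (n0 _) hl9 hl13 (z _ _ (by decide)) (z _ _ (by decide)) (z _ _ (by decide)) (nz _ _ (by decide)) (by ring) (by ring) (by ring)
  have hp6 : R (f (false, 6)) ((1)*t) ((-1)*s + (1)*t) ((1)*s*t + (1)*t) := step _ _ _ (f (false, 8)) _ _ _ _ _ _ ((1)) _ _ _ (n0 _) (n0 _) hl5 hl15 (z _ _ (by decide)) (z _ _ (by decide)) (z _ _ (by decide)) (nz _ _ (by decide)) (by ring) (by ring) (by ring)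
  have hl1 : R (f (true, 1)) ((1)*s*t + (1)*t) ((-1)*s*t + (-1)*t) ((-1)*s) := step _ _ _ (f (true, 5)) _ _ _ _ _ _ ((1)) _ _ _ (n0 _) (n0 _) hp6 hp20 (z _ _ (by decide)) (z _ _ (by decide)) (z _ _ (by decide)) (nz _ _ (by decide)) (by ring) (by ring) (by ring)
  have hl6 : R (f (true, 6)) ((-1)*s*t + (-1)*s + (-1)*t) ((1)*s*t + (1)*t) ((-1)*s*t) := step _ _ _ (f (true, 9)) _ _ _ _ _ _ ((1)) _ _ _ (n0 _) (n0 _) hp1 hp9 (z _ _ (by decide)) (z _ _ (by decide)) (z _ _ (by decide)) (nz _ _ (by decide)) (by ring) (by ring) (by ring)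
  have hl20 : R (f (true, 20)) ((-1)*s*t + (-1)*s) ((-1)*t) ((1)*t) := step _ _ _ (f (true, 1)) _ _ _ _ _ _ ((1)) _ _ _ (n0 _) (n0 _) hp6 hp12 (z _ _ (by decide)) (z _ _ (by decide)) (z _ _ (by decide)) (nz _ _ (by decide)) (by ring) (by ring) (by ring)
  have hp5 : R (f (false, 5)) ((-1)*t) ((-1)*s*t + (-1)*t) ((-1)*s*t + (-1)*t + (1)) := step _ _ _ (f (false, 1)) _ _ _ _ _ _ ((1)*s) _ _ _ (n0 _) (n0 _) hl6 hl19 (z _ _ (by decide)) (z _ _ (by decide)) (z _ _ (by decide)) (nz _ _ (by decide)) (by ring) (by ring) (by ring)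
  have hl17 : R (f (true, 17)) (0) ((1)*s*t + (1)*t + (-1)) ((-1)*s*t + (-1)*t) := step _ _ _ (f (true, 4)) _ _ _ _ _ _ ((1)) _ _ _ (n0 _) (n0 _) hp0 hp5 (z _ _ (by decide)) (z _ _ (by decide)) (z _ _ (by decide)) (nz _ _ (by decide)) (by ring) (by ring) (by ring)
  have hp4 : R (f (false, 4)) ((-1)*s*t + (-1)*t + (1)) ((-1)*s*t + (-1)*t) ((-1)*s*t + (-1)*t + (1)) := step _ _ _ (f (false, 13)) _ _ _ _ _ _ ((1)) _ _ _ (n0 _) (n0 _) hl0 hl17 (z _ _ (by decide)) (z _ _ (by decide)) (z _ _ (by decide)) (nz _ _ (by decide)) (by ring) (by ring) (by ring)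
  have hp10 : R (f (false, 10)) ((-1)*t) ((-1)*t + (-1)) ((-1)*s*t + (-1)*s + (-1)*t + (-1)) := step _ _ _ (f (false, 7)) _ _ _ _ _ _ ((1)*t) _ _ _ (n0 _) (n0 _) hl2 hl20 (z _ _ (by decide)) (z _ _ (by decide)) (z _ _ (by decide)) (nz _ _ (by decide)) (by ring) (by ring) (by ring)
  have hp11 : R (f (false, 11)) ((-1)) ((-1)*s + (-1)) ((1)*s*t + (1)*t) := step _ _ _ (f (false, 6)) _ _ _ _ _ _ ((1)*s) _ _ _ (n0 _) (n0 _) hl1 hl19 (z _ _ (by decide)) (z _ _ (by decide)) (z _ _ (by decide)) (nz _ _ (by decide)) (by ring) (by ring) (by ring)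
  have hp17 : R (f (false, 17)) ((1)*s*t) ((1)*s*t + (1)*s) ((1)) := step _ _ _ (f (false, 7)) _ _ _ _ _ _ ((1)*t) _ _ _ (n0 _) (n0 _) hl2 hl6 (z _ _ (by decide)) (z _ _ (by decide)) (z _ _ (by decide)) (nz _ _ (by decide)) (by ring) (by ring) (by ring)
  have hl11 : R (f (true, 11)) (0) ((-1)) ((1)*s*t + (1)*s) := step _ _ _ (f (true, 4)) _ _ _ _ _ _ ((1)) _ _ _ (n0 _) (n0 _) hp0 hp17 (z _ _ (by decide)) (z _ _ (by decide)) (z _ _ (by decide)) (nz _ _ (by decide)) (by ring) (by ring) (by ring)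
  have hp16 : R (f (false, 16)) ((1)) ((1)*s*t + (1)*s) ((1)) := step _ _ _ (f (false, 4)) _ _ _ _ _ _ ((1)) _ _ _ (n0 _) (n0 _) hl0 hl11 (z _ _ (by decide)) (z _ _ (by decide)) (z _ _ (by decide)) (nz _ _ (by decide)) (by ring) (by ring) (by ring)
  have hl10 : R (f (true, 10)) ((1)*s^2*t + (1)*s^2 + (1)*s*t + (2)*s + (1)) ((-1)*s + (-1)) ((1)*s) := step _ _ _ (f (true, 3)) _ _ _ _ _ _ ((1)) _ _ _ (n0 _) (n0 _) hp9 hp11 (z _ _ (by decide)) (z _ _ (by decide)) (z _ _ (by decide)) (nz _ _ (by decide)) (by ring) (by ring) (by ring)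
  have hl18 : R (f (true, 18)) ((1)*s*t^2 + (1)*s*t + (1)*t^2) ((-1)*s*t^2 + (-1)*s*t + (-1)*t^2 + (1)) ((1)*t) := step _ _ _ (f (true, 6)) _ _ _ _ _ _ ((1)) _ _ _ (n0 _) (n0 _) hp1 hp4 (z _ _ (by decide)) (z _ _ (by decide)) (z _ _ (by decide)) (nz _ _ (by decide)) (by ring) (by ring) (by ring)
  have es := eqn _ _ _ _ _ _ _ _ hl10 hp16 (z _ _ (by decide))
  have et := eqn _ _ _ _ _ _ _ _ hl18 hp10 (z _ _ (by decide))
  have hs : s = -1 / 2 := by linear_combination es / 2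
  have ht : t = -1 / 2 := by linear_combination -et / 2
  subst hs ht
  refine clos f n0 z nz [((true, 0), (false, 13), (false, 19), (true, 13)), ((true, 3), (false, 7), (false, 9), (true, 2)), ((true, 4), (false, 0), (false, 19), (true, 11)), ((true, 13), (false, 7), (false, 13), (true, 2)), ((true, 14), (false, 0), (false, 13), (true, 4)), ((false, 12), (true, 3), (true, 14), (false, 7)), ((false, 18), (true, 4), (true, 15), (false, 0)), ((false, 20), (true, 4), (true, 13), (false, 0)), ((true, 2), (false, 7), (false, 18), (true, 3)), ((true, 8), (false, 9), (false, 20), (true, 3)), ((true, 9), (false, 12), (false, 18), (true, 3)), ((false, 1), (true, 9), (true, 13), (false, 8)), ((false, 2), (true, 8), (true, 15), (false, 9)), ((false, 14), (true, 8), (true, 14), (false, 2)), ((true, 5), (false, 14), (false, 19), (true, 8)), ((true, 6), (false, 1), (false, 9), (true, 9)), ((true, 19), (false,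 7), (false, 14), (true, 2)), ((false, 5), (true, 6), (true, 19), (false, 1)), ((false, 6), (true, 5), (true, 15), (false, 8)), ((false, 8), (true, 5), (true, 9), (false, 6)), ((false, 17), (true, 2), (true, 6), (false, 7)), ((true, 1), (false, 6), (false, 20), (true, 5)), ((true, 7), (false, 2), (false, 8), (true, 8)), ((true, 11), (false, 0), (false, 17), (true, 4)), ((true, 12), (false, 5), (false, 8), (true, 6)), ((true, 16), (false, 2), (false, 17), (true, 7)), ((true, 17), (false, 0), (false, 5), (true, 4)), ((true, 20), (false, 6), (false, 12), (true, 1)), ((false, 3), (true, 7), (true, 17), (false, 2)), ((false, 4), (true, 0), (true, 16), (false, 13)), ((false, 10), (true, 2), (true, 12), (false, 7)), ((false, 11), (true, 1), (true, 16), (false, 6)), ((false, 15), (true, 1), (true, 7), (false, 6)), ((false, 16), (true, 0), (true, 11), (false, 4)), ((true, 10), (false, 3), (false, 9),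 (true, 7)), ((true, 18), (false, 1), (false, 4), (true, 6))]
    [(false, 0), (false, 19), (false, 7), (false, 13), (false, 9), (true, 15)] ?_ (by decide +kernel)
  simp only [List.mem_cons, List.not_mem_nil, or_false, forall_eq_or_imp, forall_eq]
  refine ⟨?_, ?_, ?_, ?_, ?_, ?_⟩
  · exact conv _ _ _ _ _ _ _ 1 hp0 one_ne_zero (by simp [T, tp]) (by simp [T, tp]) (by simp [T, tp])
  · exact conv _ _ _ _ _ _ _ 1 hp19 one_ne_zero (by simp [T, tp]) (by simp [T, tp]) (by simp [T, tp])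
  · exact conv _ _ _ _ _ _ _ 1 hp7 one_ne_zero (by simp [T, tp]) (by simp [T, tp]) (by simp [T, tp])
  · exact conv _ _ _ _ _ _ _ 1 hp13 one_ne_zero (by simp [T, tp]) (by simp [T, tp]) (by simp [T, tp])
  · exact conv _ _ _ _ _ _ _ (1 / 2) hp9 (by norm_num) (by simp [T, tp]) (by simp [T, tp]; norm_num)
      (by simp [T, tp]; norm_num)
  · exact conv _ _ _ _ _ _ _ (1 / 2) hl15 (by norm_num) (by simp [T, tl]; norm_num)
      (by simp [T, tl]; norm_num) (by simp [T, tl])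

def D (x y z : V) : ℝ := (x 1 * y 2 - x 2 * y 1) * z 0 + (x 2 * y 0 - x 0 * y 2) * z 1 +
  (x 0 * y 1 - x 1 * y 0) * z 2

theorem ncol (x y z u v : V) (nx : N x) (h1 : d u x = 0) (h2 : d u y = 0) (h3 : d u z ≠ 0)
    (h4 : d v x = 0) (h5 : d v y ≠ 0) : D x y z ≠ 0 := by
  obtain ⟨-, k, x1, x2, x3⟩ := base u x y v _ _ _ _ _ _ nx ⟨1, one_ne_zero, (one_mul _).symm,
    (one_mul _).symm, (one_mul _).symm⟩ ⟨1, one_ne_zero, (one_mul _).symm, (one_mul _).symm,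
    (one_mul _).symm⟩ h1 h2 h4 h5
  intro h
  apply h3
  rw [d, x1, x2, x3]
  rw [D] at h
  linear_combination k * h

theorem toN (x : V) (h : x ≠ 0) : N x := by
  by_contra hc
  simp only [N, not_or, not_not] at hc
  apply h; ext i; fin_cases i
  · exact hc.1
  · exact hc.2.1
  · exact hc.2.2

theorem normal (p u : Fin 21 → V) (h : Realizes I p u) : ∃ B : Matrix (Fin 3) (Fin 3) ℝ,
    B.det ≠ 0 ∧ (∀ i, ∃ c : ℝ, c ≠ 0 ∧ p i = c • B *ᵥ cv (T (false, i))) ∧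
    ∀ j, ∃ c : ℝ, c ≠ 0 ∧ u j ᵥ* B = c • cv (T (true, j)) := by
  obtain ⟨p0, u0, -, -, hI⟩ := h
  have z : ∀ i j, I i j → d (u j) (p i) = 0 := fun i j h => by rw [d, ← dot3]; exact (hI i j).2 h
  have nz : ∀ i j, ¬ I i j → d (u j) (p i) ≠ 0 := fun i j h e => h ((hI i j).1 (by rw [dot3]; exact e))
  have d1 := ncol (p 0) (p 19) (p 7) (u 4) (u 14) (toN _ (p0 _)) (z _ _ (by decide))
    (z _ _ (by decide)) (nz _ _ (by decide)) (z _ _ (by decide)) (nz _ _ (by decide))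
  have d2 := ncol (p 19) (p 7) (p 13) (u 3) (u 4) (toN _ (p0 _)) (z _ _ (by decide))
    (z _ _ (by decide)) (nz _ _ (by decide)) (z _ _ (by decide)) (nz _ _ (by decide))
  have d3 := ncol (p 7) (p 13) (p 0) (u 13) (u 3) (toN _ (p0 _)) (z _ _ (by decide))
    (z _ _ (by decide)) (nz _ _ (by decide)) (z _ _ (by decide)) (nz _ _ (by decide))
  have d4 := ncol (p 0) (p 19) (p 13) (u 4) (u 14) (toN _ (p0 _)) (z _ _ (by decide))
    (z _ _ (by decide)) (nz _ _ (by decide)) (z _ _ (by decide)) (nz _ _ (by decide))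
  obtain ⟨m1, hm1⟩ : ∃ m, m = D (p 19) (p 7) (p 13) := ⟨_, rfl⟩
  obtain ⟨m2, hm2⟩ : ∃ m, m = -D (p 7) (p 13) (p 0) := ⟨_, rfl⟩
  obtain ⟨m3, hm3⟩ : ∃ m, m = D (p 0) (p 19) (p 13) := ⟨_, rfl⟩
  obtain ⟨m4, hm4⟩ : ∃ m, m = D (p 0) (p 19) (p 7) := ⟨_, rfl⟩
  have n1 : m1 ≠ 0 := hm1 ▸ d2
  have n2 : m2 ≠ 0 := hm2 ▸ neg_ne_zero.2 d3
  have n3 : m3 ≠ 0 := hm3 ▸ d4
  have n4 : m4 ≠ 0 := hm4 ▸ d1
  let B : Matrix (Fin 3) (Fin 3) ℝ := !![m1 * p 0 0, m2 * p 19 0, m3 * p 7 0;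
    m1 * p 0 1, m2 * p 19 1, m3 * p 7 1; m1 * p 0 2, m2 * p 19 2, m3 * p 7 2]
  have hB : B.det ≠ 0 := by
    have : B.det = m1 * m2 * m3 * m4 := by
      rw [hm4]; simp [B, det_fin_three, D]; ring
    rw [this]; exact mul_ne_zero (mul_ne_zero (mul_ne_zero n1 n2) n3) n4
  have hU : IsUnit B.det := isUnit_iff_ne_zero.2 hB
  have bi : ∀ x, B *ᵥ (B⁻¹ *ᵥ x) = x := fun x => by
    rw [mulVec_mulVec, mul_nonsing_inv _ hU, one_mulVec]
  have ib : ∀ x, B⁻¹ *ᵥ (B *ᵥ x) = x := fun x => by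
    rw [mulVec_mulVec, nonsing_inv_mul _ hU, one_mulVec]
  let f : E → V := fun e => if e.1 then u e.2 ᵥ* B else B⁻¹ *ᵥ p e.2
  have hd : ∀ i j, d (f (true, j)) (f (false, i)) = 0 ↔ I i j := by
    intro i j
    rw [← hI, d, ← dot3]
    simp only [f, if_true, Bool.false_eq_true, if_false]
    rw [← dotProduct_mulVec, bi]
  have dc : ∀ x y, d x y = d y x := fun x y => by simp only [d]; ring
  have zc : ∀ x y, dz x y = dz y x := fun x y => by simp only [dz]; ring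
  have fr : ∀ i (k a b c : ℝ), k ≠ 0 → p i = B *ᵥ ![k * a, k * b, k * c] → R (f (false, i)) a b c := by
    intro i k a b c hk e
    have : f (false, i) = ![k * a, k * b, k * c] := by
      simp only [f, Bool.false_eq_true, if_false]; rw [e, ib]
    exact ⟨k, hk, by rw [this]; rfl, by rw [this]; rfl, by rw [this]; rfl⟩
  have key := core f (by
      rintro ⟨b, i⟩
      apply toN
      cases b
      · intro e
        apply p0 i
        rw [← bi (p i)]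
        simp only [f, Bool.false_eq_true, if_false] at e
        rw [e, mulVec_zero]
      · intro e
        apply u0 i
        simp only [f, if_true] at e
        have : u i ᵥ* B ᵥ* B⁻¹ = u i := by rw [vecMul_vecMul, mul_nonsing_inv _ hU, vecMul_one]
        rw [← this, e, zero_vecMul])
    (by
      rintro ⟨a, i⟩ ⟨b, j⟩ h
      cases a <;> cases b <;> simp [inc] at h
      · rw [dc, hd, I, zc]; exact h
      · rw [hd, I]; exact h)
    (by
      rintro ⟨a, i⟩ ⟨b, j⟩ h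
      cases a <;> cases b <;> simp [non] at h
      · rw [dc, Ne, hd, I, zc]; exact h
      · rw [Ne, hd, I]; exact h)
    (fr 0 m1⁻¹ 1 0 0 (inv_ne_zero n1) (by
      ext i; fin_cases i <;> simp [B, mulVec, dot3] <;> field_simp))
    (fr 19 m2⁻¹ 0 1 0 (inv_ne_zero n2) (by
      ext i; fin_cases i <;> simp [B, mulVec, dot3] <;> field_simp))
    (fr 7 m3⁻¹ 0 0 1 (inv_ne_zero n3) (by
      ext i; fin_cases i <;> simp [B, mulVec, dot3] <;> field_simp))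
    (fr 13 m4⁻¹ 1 1 1 (inv_ne_zero n4) (by
      ext i; fin_cases i <;> simp [B, mulVec, dot3] <;> field_simp <;>
        rw [hm1, hm2, hm3, hm4] <;> simp only [D] <;> ring))
  have conv2 : ∀ e, ∃ c : ℝ, c ≠ 0 ∧ f e = c • cv (T e) := by
    intro e
    obtain ⟨k, hk, a, b, c⟩ := key e
    refine ⟨k, hk, ?_⟩
    ext i; fin_cases i
    · exact a
    · exact b
    · exact c
  refine ⟨B, hB, fun i => ?_, fun j => conv2 (true, j)⟩
  obtain ⟨c, hc, e⟩ := conv2 (false, i)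
  refine ⟨c, hc, ?_⟩
  rw [← mulVec_smul, ← e]
  exact (bi _).symm

/-- A rigid geometric `(21_4)` configuration. -/
theorem result : ∃ (n k : ℕ) (I : Fin n → Fin n → Prop), 3 ≤ k ∧ 0 < n ∧ IsConfig n k I ∧
    (∃ p u, Realizes I p u) ∧
    ∀ p u p' u', Realizes I p u → Realizes I p' u' → ProjEquiv p u p' u' := by
  refine ⟨21, 4, I, by norm_num, by norm_num, config, real, fun p u p' u' h h' => ?_⟩
  obtain ⟨B, hB, a1, a2⟩ := normal p u h
  obtain ⟨C, hC, b1, b2⟩ := normal p' u' h'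
  have hU : IsUnit B.det := isUnit_iff_ne_zero.2 hB
  refine ⟨C * B⁻¹, ?_, fun i => ?_, fun j x => ?_⟩
  · rw [det_mul]
    exact mul_ne_zero hC (isUnit_iff_ne_zero.1 (isUnit_nonsing_inv_det _ hU))
  · obtain ⟨c, hc, e⟩ := a1 i
    obtain ⟨c', hc', e'⟩ := b1 i
    refine ⟨c / c', div_ne_zero hc hc', ?_⟩
    rw [e, e', mulVec_smul, mulVec_mulVec, Matrix.mul_assoc, nonsing_inv_mul _ hU, Matrix.mul_one,
      smul_smul, div_mul_cancel₀ _ hc']
  · obtain ⟨c, hc, e⟩ := a2 j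
    obtain ⟨c', hc', e'⟩ := b2 j
    have : x = B *ᵥ (B⁻¹ *ᵥ x) := by rw [mulVec_mulVec, mul_nonsing_inv _ hU, one_mulVec]
    rw [← mulVec_mulVec, dotProduct_mulVec (u' j), e']
    conv_lhs => rw [this, dotProduct_mulVec, e]
    simp [smul_dotProduct, hc, hc']

end Pool.Agent.Results.MP_409c19_co.Rigid
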